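import Pool.Agent.helper23.F2.Spec

/-!
# AX6: lifting a conflict-free copy from the auxiliary graph
-/

set_option autoImplicit false

namespace Pool.Agent.F2

open Pool.Agent.helper23.TH

namespace AX6x

/-- the map of the vertices -/
def psi {V : Type} (H : HG) (t : ℕ) (φ : H.W → V) (μ : Bool → V) (a : H.E → Fin (t + 1) → V) :
    (H.Lt t).W → V
  | .inl (.inl w) => φ w
  | .inl (.inr β) => μ β
  | .inr (e, k) => a e ⟨k.1 + 1, by have := k.2; omega⟩

theorem psi_pt {V : Type} (H : HG) (t : ℕ) (φ : H.W → V) (μ : Bool → V) (a : H.E → Fin (t + 1) → V)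
    (h0 : ∀ e, a e 0 = φ (H.ed e).1) (h1 : ∀ e, a e (Fin.last t) = φ (H.ed e).2)
    (e : H.E) (i : ℕ) (hi : i ≤ t) : psi H t φ μ a (H.pt t e i) = a e ⟨i, by omega⟩ := by
  unfold HG.pt
  split_ifs with h2 h3
  · simp only [psi]
    have : (⟨i - 1 + 1, by omega⟩ : Fin (t + 1)) = ⟨i, by omega⟩ := Fin.ext (by simp; omega)
    rw [this]
  · subst h3
    simp only [psi]
    rw [← h0]
    rfl
  · have h4 : i = t := by omega
    subst h4
    simp only [psi]
    rw [← h1]
    rfl

/-- the cells -/
def cel (H : HG) (t : ℕ) : (H.Lt t).W ⊕ (H.Lt t).E → (H.W ⊕ H.E) ⊕ Bool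
  | .inl (.inl (.inl w)) => .inl (.inl w)
  | .inl (.inl (.inr β)) => .inr β
  | .inl (.inr (e, _)) => .inl (.inr e)
  | .inr (.inl w) => .inl (.inl w)
  | .inr (.inr (e, _)) => .inl (.inr e)

/-- the labels of a cell -/
def cs {V L : Type} (H : HG) (A : H.W → Finset L) (B : H.E → Finset L) (C : Bool → Finset L) :
    (H.W ⊕ H.E) ⊕ Bool → Finset L
  | .inl (.inl w) => A w
  | .inl (.inr e) => B e
  | .inr β => C β

end AX6x

open AX6x

theorem AX6 (hAX1 : AX1_stmt) (hAX2 : AX2_stmt) (_hWK5 : WK5_stmt) : AX6_stmt := by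
  classical
  intro V L _ b s G t q m m' ρ S H φ ht hAD hS hU hadj hvv hve hee hcol
  obtain ⟨-, hf2, hf3, -, -, -, -, -⟩ := hAX1 V L b s G t q m m' ρ S ht hAD
  have hpath := fun e => hAX2 V L b s G t q m m' ρ S ht hAD (φ (H.ed e).1) (φ (H.ed e).2) (hadj e)
  -- roles of the two ends
  obtain ⟨P0, hP0⟩ := hS
  have hm : ∀ z ∈ G.lv m, ρ z = .inl 0 := by
    intro z hz
    apply hAD.role P0 hP0 (.inl 0) z
    simp only [LG.obj]
    rw [hAD.fst P0 hP0]
    exact hz
  have hm' : ∀ z ∈ G.lv m', ρ z = .inl (Fin.last (t + 2)) := by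
    intro z hz
    apply hAD.role P0 hP0 (.inl (Fin.last (t + 2))) z
    simp only [LG.obj]
    rw [hAD.lst P0 hP0]
    exact hz
  -- the vertex with `ac = false`
  have hac : ∀ x, ac G ρ x = false ↔ ρ (G.nm x) = .inl 1 := by
    intro x
    unfold ac
    simp
  have hF : ∀ x ∈ aU S, ρ (G.nm x) = .inl 1 → G.A m x ∧ (∀ z ∈ G.lv x, ρ z = .inl 1) ∧
      (∀ z ∈ G.le m x, ρ z = .inr 0) := by
    intro x hx h1
    obtain ⟨P, hP, hPx⟩ := hf2 x hx ((hac x).2 h1)
    have hw := hAD.walk P hP
    have h0 := hAD.fst P hP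
    have e1 : (0 : Fin (t + 2)).castSucc = (0 : Fin (t + 3)) := rfl
    have e2 : (0 : Fin (t + 2)).succ = (1 : Fin (t + 3)) := rfl
    refine ⟨?_, ?_, ?_⟩
    · have h2 := hw 0
      rw [e1, e2, h0, hPx] at h2
      exact h2
    · intro z hz
      apply hAD.role P hP (.inl 1) z
      simp only [LG.obj]
      rw [hPx]
      exact hz
    · intro z hz
      apply hAD.role P hP (.inr 0) z
      simp only [LG.obj]
      rw [e1, e2, h0, hPx]
      exact hz
  have hT : ∀ x ∈ aU S, ρ (G.nm x) ≠ .inl 1 → G.A m' x ∧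
      (∀ z ∈ G.lv x, ρ z = .inl (Fin.last (t + 1)).castSucc) ∧
      (∀ z ∈ G.le m' x, ρ z = .inr (Fin.last (t + 1))) := by
    intro x hx h1
    have h1' : ac G ρ x = true := by
      cases h2 : ac G ρ x
      · exact absurd ((hac x).1 h2) h1
      · rfl
    obtain ⟨P, hP, hPx⟩ := hf3 x hx h1'
    have hw := hAD.walk P hP
    have h0 := hAD.lst P hP
    have e2 : (Fin.last (t + 1)).succ = Fin.last (t + 2) := rfl
    refine ⟨?_, ?_, ?_⟩
    · have h2 := hw (Fin.last (t + 1))
      rw [e2, h0, hPx] at h2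
      exact G.symm _ _ h2
    · intro z hz
      apply hAD.role P hP (.inl (Fin.last (t + 1)).castSucc) z
      simp only [LG.obj]
      rw [hPx]
      exact hz
    · intro z hz
      apply hAD.role P hP (.inr (Fin.last (t + 1))) z
      simp only [LG.obj]
      rw [e2, h0, hPx, G.lsymm]
      exact hz
  have hlast : (Fin.last (t + 2) : Fin (t + 3)) ≠ 0 := by
    intro h
    have := congrArg Fin.val h
    simp at this
  have h1ne0 : (1 : Fin (t + 3)) ≠ 0 := by
    intro h
    have := congrArg Fin.val h
    simp at this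
  have h1nel : (1 : Fin (t + 3)) ≠ Fin.last (t + 2) := by
    intro h
    have := congrArg Fin.val h
    simp at this
  have hlc0 : (Fin.last (t + 1)).castSucc ≠ (0 : Fin (t + 3)) := by
    intro h
    have := congrArg Fin.val h
    simp at this
  have hlcl : (Fin.last (t + 1)).castSucc ≠ Fin.last (t + 2) := by
    intro h
    have := congrArg Fin.val h
    simp at this
  -- `alv`
  have hal : ∀ w, ∀ z ∈ alv G m m' ρ (φ w), ρ z ≠ .inl 0 ∧ ρ z ≠ .inl (Fin.last (t + 2)) := by
    intro w z hz
    unfold alv at hz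
    by_cases h1 : ρ (G.nm (φ w)) = .inl 1
    · rw [if_pos h1] at hz
      obtain ⟨-, h2, h3⟩ := hF (φ w) (hU w) h1
      rcases Finset.mem_union.1 hz with h4 | h4
      · rw [h2 z h4]
        exact ⟨fun h => h1ne0 (Sum.inl.inj h), fun h => h1nel (Sum.inl.inj h)⟩
      · rw [h3 z h4]
        exact ⟨nofun, nofun⟩
    · rw [if_neg h1] at hz
      obtain ⟨-, h2, h3⟩ := hT (φ w) (hU w) h1
      rcases Finset.mem_union.1 hz with h4 | h4
      · rw [h2 z h4]
        exact ⟨fun h => hlc0 (Sum.inl.inj h), fun h => hlcl (Sum.inl.inj h)⟩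
      · rw [h3 z h4]
        exact ⟨nofun, nofun⟩
  -- `ale`
  have hle : ∀ e, ∀ z ∈ ale G S (φ (H.ed e).1) (φ (H.ed e).2), ρ z ≠ .inl 0 ∧
      ρ z ≠ .inl (Fin.last (t + 2)) := by
    intro e z hz
    unfold ale at hz
    rw [if_pos (hadj e)] at hz
    obtain ⟨o, -, hzo⟩ := Finset.mem_biUnion.1 hz
    obtain ⟨-, -, -, hr1, hr2, -⟩ := hpath e
    rcases hb : ac G ρ (φ (H.ed e).1) with _ | _
    · obtain ⟨ha, hc⟩ := hr1 hb
      rcases o with i | j
      · rw [ha i z hzo]
        refine ⟨fun h => ?_, fun h => ?_⟩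
        · have := congrArg Fin.val (Sum.inl.inj h)
          simp at this
        · have := congrArg Fin.val (Sum.inl.inj h)
          have hi := i.2
          simp at this
          omega
      · rw [hc j z hzo]
        exact ⟨nofun, nofun⟩
    · obtain ⟨ha, hc⟩ := hr2 hb
      rcases o with i | j
      · rw [ha i z hzo]
        refine ⟨fun h => ?_, fun h => ?_⟩
        · have := congrArg Fin.val (Sum.inl.inj h)
          have hi := i.2
          simp [Fin.val_rev] at this
          omega
        · have := congrArg Fin.val (Sum.inl.inj h)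
          have hi := i.2
          simp [Fin.val_rev] at this
          omega
      · rw [hc j z hzo]
        exact ⟨nofun, nofun⟩
  -- the images of the two new vertices
  obtain ⟨μ, hμ1, hμ2⟩ : ∃ μ : Bool → V,
      (∀ w, μ (H.col w) = if ρ (G.nm (φ w)) = .inl 1 then m else m') ∧
      ((∀ z ∈ G.lv (μ false), ρ z = .inl 0) ∧ (∀ z ∈ G.lv (μ true), ρ z = .inl (Fin.last (t + 2))) ∨
       (∀ z ∈ G.lv (μ true), ρ z = .inl 0) ∧ (∀ z ∈ G.lv (μ false), ρ z = .inl (Fin.last (t + 2)))) := by
    rcases hcol with hc | hc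
    · refine ⟨fun β => if β then m' else m, ?_, Or.inl ⟨?_, ?_⟩⟩
      · intro w
        by_cases h1 : ρ (G.nm (φ w)) = .inl 1
        · rw [if_pos h1, ← hc w, (hac _).2 h1]
          rfl
        · have h2 : ac G ρ (φ w) = true := by
            cases h2 : ac G ρ (φ w)
            · exact absurd ((hac _).1 h2) h1
            · rfl
          rw [if_neg h1, ← hc w, h2]
          rfl
      · exact hm
      · exact hm'
    · refine ⟨fun β => if β then m else m', ?_, Or.inr ⟨?_, ?_⟩⟩
      · intro w
        have hcw : H.col w = !ac G ρ (φ w) := by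
          rw [hc w]
          simp
        by_cases h1 : ρ (G.nm (φ w)) = .inl 1
        · rw [if_pos h1, hcw, (hac _).2 h1]
          rfl
        · have h2 : ac G ρ (φ w) = true := by
            cases h2 : ac G ρ (φ w)
            · exact absurd ((hac _).1 h2) h1
            · rfl
          rw [if_neg h1, hcw, h2]
          rfl
      · exact hm
      · exact hm'
  have hμr : ∀ β, ∀ z ∈ G.lv (μ β), ρ z = .inl 0 ∨ ρ z = .inl (Fin.last (t + 2)) := by
    intro β z hz
    rcases hμ2 with ⟨h1, h2⟩ | ⟨h1, h2⟩ <;> cases β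
    · exact Or.inl (h1 z hz)
    · exact Or.inr (h2 z hz)
    · exact Or.inr (h2 z hz)
    · exact Or.inl (h1 z hz)
  -- the edge to the new vertex
  have hwe : ∀ w, G.A (μ (H.col w)) (φ w) ∧ G.lv (φ w) ⊆ alv G m m' ρ (φ w) ∧
      G.le (μ (H.col w)) (φ w) ⊆ alv G m m' ρ (φ w) ∧
      Disjoint (G.lv (φ w)) (G.le (μ (H.col w)) (φ w)) := by
    intro w
    by_cases h1 : ρ (G.nm (φ w)) = .inl 1
    · have h2 := hμ1 w
      rw [if_pos h1] at h2
      obtain ⟨h3, h4, h5⟩ := hF (φ w) (hU w) h1
      rw [h2]
      unfold alv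
      rw [if_pos h1]
      refine ⟨h3, Finset.subset_union_left, Finset.subset_union_right, ?_⟩
      rw [Finset.disjoint_left]
      intro z hz hz'
      have := (h4 z hz).symm.trans (h5 z hz')
      cases this
    · have h2 := hμ1 w
      rw [if_neg h1] at h2
      obtain ⟨h3, h4, h5⟩ := hT (φ w) (hU w) h1
      rw [h2]
      unfold alv
      rw [if_neg h1]
      refine ⟨h3, Finset.subset_union_left, Finset.subset_union_right, ?_⟩
      rw [Finset.disjoint_left]
      intro z hz hz'
      have := (h4 z hz).symm.trans (h5 z hz')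
      cases this
  -- the map
  set a : H.E → Fin (t + 1) → V := fun e => aP S (φ (H.ed e).1) (φ (H.ed e).2) with ha
  have ha0 : ∀ e, a e 0 = φ (H.ed e).1 := fun e => (hpath e).2.1
  have ha1 : ∀ e, a e (Fin.last t) = φ (H.ed e).2 := fun e => (hpath e).2.2.1
  have hap := psi_pt H t φ μ a ha0 ha1
  -- labels of the objects
  have hlabE : ∀ e (i : Fin t), G.lab (H.Lt t) (psi H t φ μ a) (.inr (.inr (e, i))) = G.obj (a e) (.inr i) := by
    intro e i
    have h1 := i.2
    show G.le (psi H t φ μ a (H.pt t e i.1)) (psi H t φ μ a (H.pt t e (i.1 + 1))) = _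
    rw [hap e i.1 (by omega), hap e (i.1 + 1) (by omega)]
    rfl
  have hlabV : ∀ e (k : Fin (t - 1)), G.lab (H.Lt t) (psi H t φ μ a) (.inl (.inr (e, k))) =
      G.obj (a e) (.inl ⟨k.1 + 1, by have := k.2; omega⟩) := fun _ _ => rfl
  refine ⟨psi H t φ μ a, ?_, ?_⟩
  · rintro (w | ⟨e, i⟩)
    · exact (hwe w).1
    · have h1 := i.2
      show G.A (psi H t φ μ a (H.pt t e i.1)) (psi H t φ μ a (H.pt t e (i.1 + 1)))
      rw [hap e i.1 (by omega), hap e (i.1 + 1) (by omega)]
      exact (hpath e).1 i
  · -- cells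
    have hsub : ∀ o, G.lab (H.Lt t) (psi H t φ μ a) o ⊆
        cs (V := V) H (fun w => alv G m m' ρ (φ w)) (fun e => ale G S (φ (H.ed e).1) (φ (H.ed e).2))
          (fun β => G.lv (μ β)) (cel H t o) := by
      have hin : ∀ e (o : Ob t), Inn o → G.obj (a e) o ⊆ ale G S (φ (H.ed e).1) (φ (H.ed e).2) := by
        intro e o ho
        unfold ale
        rw [if_pos (hadj e)]
        exact Finset.subset_biUnion_of_mem (fun o => G.obj (aP S (φ (H.ed e).1) (φ (H.ed e).2)) o)
          (Finset.mem_filter.2 ⟨Finset.mem_univ o, ho⟩)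
      rintro (((w | β) | ⟨e, k⟩) | (w | ⟨e, i⟩))
      · exact (hwe w).2.1
      · exact Finset.Subset.refl _
      · rw [hlabV]
        apply hin
        have hk := k.2
        refine ⟨fun h => ?_, fun h => ?_⟩
        · have := congrArg Fin.val (Sum.inl.inj h)
          simp at this
        · have := congrArg Fin.val (Sum.inl.inj h)
          simp at this
          omega
      · exact (hwe w).2.2.1
      · rw [hlabE]
        apply hin
        exact ⟨nofun, nofun⟩
    have hcc : ∀ c c', c ≠ c' → Disjoint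
        (cs (V := V) H (fun w => alv G m m' ρ (φ w)) (fun e => ale G S (φ (H.ed e).1) (φ (H.ed e).2))
          (fun β => G.lv (μ β)) c)
        (cs (V := V) H (fun w => alv G m m' ρ (φ w)) (fun e => ale G S (φ (H.ed e).1) (φ (H.ed e).2))
          (fun β => G.lv (μ β)) c') := by
      have hwB : ∀ w β, Disjoint (alv G m m' ρ (φ w)) (G.lv (μ β)) := by
        intro w β
        rw [Finset.disjoint_left]
        intro z hz hz'
        rcases hμr β z hz' with h | h
        · exact (hal w z hz).1 h
        · exact (hal w z hz).2 h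
      have heB : ∀ e β, Disjoint (ale G S (φ (H.ed e).1) (φ (H.ed e).2)) (G.lv (μ β)) := by
        intro e β
        rw [Finset.disjoint_left]
        intro z hz hz'
        rcases hμr β z hz' with h | h
        · exact (hle e z hz).1 h
        · exact (hle e z hz).2 h
      have hBB : Disjoint (G.lv (μ false)) (G.lv (μ true)) := by
        rw [Finset.disjoint_left]
        intro z hz hz'
        rcases hμ2 with ⟨h1, h2⟩ | ⟨h1, h2⟩
        · have := (h1 z hz).symm.trans (h2 z hz')
          exact hlast (Sum.inl.inj this).symm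
        · have := (h1 z hz').symm.trans (h2 z hz)
          exact hlast (Sum.inl.inj this).symm
      rintro ((w | e) | β) ((w' | e') | β') hne
      · exact hvv w w' (fun h => hne (by rw [h]))
      · exact hve w e'
      · exact hwB w β'
      · exact (hve w' e).symm
      · exact hee e e' (fun h => hne (by rw [h]))
      · exact heB e β'
      · exact (hwB w' β).symm
      · exact (heB e' β).symm
      · cases β <;> cases β'
        · exact absurd rfl hne
        · exact hBB
        · exact hBB.symm
        · exact absurd rfl hne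
    intro o o' hne
    by_cases hc : cel H t o = cel H t o'
    · rcases o with (((w | β) | ⟨e, k⟩) | (w | ⟨e, i⟩)) <;>
        rcases o' with (((w' | β') | ⟨e', k'⟩) | (w' | ⟨e', i'⟩)) <;>
        simp only [cel, Sum.inl.injEq, Sum.inr.injEq, reduceCtorEq] at hc
      · subst hc
        exact absurd rfl hne
      · subst hc
        exact (hwe w).2.2.2
      · subst hc
        exact absurd rfl hne
      · subst hc
        rw [hlabV, hlabV]
        apply (hpath e).2.2.2.2.2
        intro h
        apply hne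
        have h2 := congrArg Fin.val (Sum.inl.inj h)
        simp only [Nat.add_right_cancel_iff] at h2
        rw [Fin.ext h2]
      · subst hc
        rw [hlabV, hlabE]
        apply (hpath e).2.2.2.2.2
        intro h
        cases h
      · subst hc
        exact (hwe w).2.2.2.symm
      · subst hc
        exact absurd rfl hne
      · subst hc
        rw [hlabV, hlabE]
        apply (hpath e).2.2.2.2.2
        intro h
        cases h
      · subst hc
        rw [hlabE, hlabE]
        apply (hpath e).2.2.2.2.2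
        intro h
        apply hne
        rw [Sum.inr.inj h]
    · exact Disjoint.mono (hsub o) (hsub o') (hcc _ _ hc)

end Pool.Agent.F2
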